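import Pool.Agent.Q73.GM.ASM
import Pool.Agent.Q73.GM.ABS
import Pool.Agent.Q73.GM.ALG
import Pool.Agent.Q73.GM.AVG
import Pool.Agent.Q73.GM.AVH
import Pool.Agent.Q73.GM.AVL
import Pool.Agent.Q73.GM.BB
import Pool.Agent.Q73.GM.CDEP
import Pool.Agent.Q73.GM.COD
import Pool.Agent.Q73.GM.COMP
import Pool.Agent.Q73.GM.CONT
import Pool.Agent.Q73.GM.DBD
import Pool.Agent.Q73.GM.DEN
import Pool.Agent.Q73.GM.DGEN
import Pool.Agent.Q73.GM.DSP
import Pool.Agent.Q73.GM.ELL
import Pool.Agent.Q73.GM.ELS
import Pool.Agent.Q73.GM.ERIS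
import Pool.Agent.Q73.GM.FIN
import Pool.Agent.Q73.GM.FRED
import Pool.Agent.Q73.GM.FUN
import Pool.Agent.Q73.GM.GERM
import Pool.Agent.Q73.GM.ISO
import Pool.Agent.Q73.GM.L1
import Pool.Agent.Q73.GM.LB
import Pool.Agent.Q73.GM.LO
import Pool.Agent.Q73.GM.LOW
import Pool.Agent.Q73.GM.MM
import Pool.Agent.Q73.GM.MRG
import Pool.Agent.Q73.GM.NET
import Pool.Agent.Q73.GM.NODE
import Pool.Agent.Q73.GM.RAV
import Pool.Agent.Q73.GM.REC
import Pool.Agent.Q73.GM.RISB
import Pool.Agent.Q73.GM.SEL
import Pool.Agent.Q73.GM.SPL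
import Pool.Agent.Q73.GM.STAR
import Pool.Agent.Q73.GM.STEP
import Pool.Agent.Q73.GM.SUPP
import Pool.Agent.Q73.GM.TA
import Pool.Agent.Q73.GM.TAIL
import Pool.Agent.Q73.GM.WN

set_option autoImplicit false

/-!
MP_56784f_an, Q1 (full answer, YES, for both scalar fields): there is an infinite-dimensional Banach
space which is isomorphic to its square, but not to its direct sum with a finite-dimensional space
of positive dimension; in particular it is not isomorphic to its hyperplanes.

The space is of Gowers-Maurey type: the norming functionals are closed under the spreads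
`e_{2^k2 m + r2} → e_{2^k1 m + r1}` (`r1 < 2^k1`, `r2 < 2^k2`), which form the semigroup of the
Cuntz relations; so `x ↦ (x restricted to the even coordinates, to the odd coordinates)` is an
isomorphism with the square. Every operator is, on rapidly increasing sequences, near to one linear
combination of spreads. If `X` were isomorphic to `X ⊕ K^n`, we would get operators `J, R` with
`R J = 1`, `J R = 1 - P`, `P` a projection of rank `n`; they are near to combinations `a, b` of
spreads, and `a b - 1` is small in the `ℓ¹` sense, so the range of `a` is dense; but `J` and `a` can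
be joined by a segment of operators which are bounded below on a tail, so the ranges have the same
codimension.
-/

namespace Pool.Agent.Results.MP_56784f_an.SquareNotHyperplane

open Pool.Agent.Q73.GM

theorem main : Main := by
  have spl := t_SPL
  have st := t_STEP spl
  have hrec := t_REC st
  have nd := t_NODE
  have avl := t_AVL st hrec nd
  have avh := t_AVH nd
  have avg := t_AVG avl avh
  have dg := t_DGEN
  have ds := t_DSP dg
  have co := t_COMP
  have dbd := t_DBD co hrec dg ds
  have rav := t_RAV
  have l1 := t_L1 spl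
  have els := t_ELS
  have eris := t_ERIS els
  have low := t_LOW
  have tail := t_TAIL low
  have wn := t_WN avg
  have lo := t_LO els wn
  have sp := t_SUPP
  have sel := t_SEL lo tail
  have cd := t_CDEP els avg sp
  have con := t_CON dbd cd
  have fi := t_FIN
  have fn := t_FUN t_ABS fi
  have star := t_STAR sp sel fn con
  have net := t_NET fi
  have lb := t_LB low sp
  have mrg := t_MRG avg rav sel lb
  have ta := t_TA star net t_MM mrg
  have germ := t_GERM low eris avg rav
  have ell := t_ELL low
  have risb := t_RISB els l1 ell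
  have bb := t_BB tail risb
  exact t_ASM eris wn ta germ (t_ALG co) (t_DEN els tail) bb t_FRED t_COD t_ISO

/-- a complex isomorphism is a real isomorphism -/
noncomputable def toReal {X Y : Type} [NormedAddCommGroup X] [NormedSpace ℂ X]
    [NormedAddCommGroup Y] [NormedSpace ℂ Y] (f : X ≃L[ℂ] Y) : X ≃L[ℝ] Y :=
  { f.toLinearEquiv.restrictScalars ℝ with
    continuous_toFun := f.continuous
    continuous_invFun := f.symm.continuous }

theorem result :
    (∃ (X : Type) (_ : NormedAddCommGroup X) (_ : NormedSpace ℂ X) (_ : CompleteSpace X),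
      ¬ FiniteDimensional ℂ X ∧ Nonempty (X ≃L[ℂ] X × X) ∧
      ∀ n : ℕ, 1 ≤ n → IsEmpty (X ≃L[ℂ] X × (Fin n → ℂ))) ∧
    (∃ (X : Type) (_ : NormedAddCommGroup X) (_ : NormedSpace ℝ X) (_ : CompleteSpace X),
      ¬ FiniteDimensional ℝ X ∧ Nonempty (X ≃L[ℝ] X × X) ∧
      ∀ n : ℕ, 1 ≤ n → IsEmpty (X ≃L[ℝ] X × (Fin n → ℝ))) := by
  obtain ⟨h1, ⟨f⟩, h3⟩ := main
  refine ⟨⟨XX, inferInstance, inferInstance, inferInstance, ?_, ⟨f⟩, ?_⟩,
    ⟨XX, inferInstance, inferInstance, inferInstance, h1, ⟨toReal f⟩, h3⟩⟩
  · intro hfin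
    exact h1 (FiniteDimensional.complexToReal XX)
  · intro n hn
    refine ⟨fun g => ?_⟩
    have e : (Fin n → ℂ) ≃L[ℝ] (Fin (2 * n) → ℝ) := by
      refine ContinuousLinearEquiv.ofFinrankEq ?_
      rw [Module.finrank_pi_fintype, Module.finrank_pi, Finset.sum_const, Finset.card_univ,
        Fintype.card_fin, Complex.finrank_real_complex, Fintype.card_fin, smul_eq_mul, mul_comm]
    have g' : XX ≃L[ℝ] XX × (Fin n → ℂ) := toReal g
    exact (h3 (2 * n) (by omega)).false (g'.trans ((ContinuousLinearEquiv.refl ℝ XX).prodCongr e))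

end Pool.Agent.Results.MP_56784f_an.SquareNotHyperplane
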